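import Mathlib

/-!
`d`-closures, simplicial faces, deletions and `d`-chordality.
-/

namespace Pool.Agent.R141.DC

/-- `F` is a facet of `Γ`: a face contained in no other face. -/
def IsFacet {n : ℕ} (Γ : Set (Finset (Fin n))) (F : Finset (Fin n)) : Prop :=
  F ∈ Γ ∧ ∀ G ∈ Γ, F ⊆ G → G = F

/-- The `d`-closure of `Γ`: all sets with at most `d` elements, and the sets with at least `d + 1`
elements all of whose `(d + 1)`-element subsets lie in `Γ`. -/
def clos {n : ℕ} (d : ℕ) (Γ : Set (Finset (Fin n))) : Set (Finset (Fin n)) :=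
  {F | F.card ≤ d ∨ (d + 1 ≤ F.card ∧ ∀ S ⊆ F, S.card = d + 1 → S ∈ Γ)}

/-- `Γ` is a `d`-closure. -/
def IsClosure {n : ℕ} (d : ℕ) (Γ : Set (Finset (Fin n))) : Prop := Γ = clos d Γ

/-- `E` is a free face of `Γ`: a face lying in exactly one facet. -/
def IsFree {n : ℕ} (Γ : Set (Finset (Fin n))) (E : Finset (Fin n)) : Prop :=
  E ∈ Γ ∧ ∃! F, IsFacet Γ F ∧ E ⊆ F

/-- The simplicial faces: the free faces with `d` elements. -/
def Simp {n : ℕ} (d : ℕ) (Γ : Set (Finset (Fin n))) : Set (Finset (Fin n)) :=
  {E | IsFree Γ E ∧ E.card = d}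

/-- The deletion `Γ⟨E⟩`: all faces strictly containing `E` are removed. -/
def del {n : ℕ} (Γ : Set (Finset (Fin n))) (E : Finset (Fin n)) : Set (Finset (Fin n)) :=
  {F | F ∈ Γ ∧ ¬ E ⊂ F}

/-- `d`-chordal `d`-closures: the complex of all sets with at most `d` elements, and the
`d`-closures having a simplicial face `E` that is not a facet and such that `Γ⟨E⟩` is
`d`-chordal. -/
inductive Chordal {n : ℕ} (d : ℕ) : Set (Finset (Fin n)) → Prop
  | skel : Chordal d {F | F.card ≤ d}
  | step (Γ : Set (Finset (Fin n))) (E : Finset (Fin n)) : IsClosure d Γ → E ∈ Simp d Γ →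
      ¬ IsFacet Γ E → Chordal d (del Γ E) → Chordal d Γ

/-! ### Bit masks -/

/-- bit mask of a set -/
def mask (S : Finset (Fin 10)) : ℕ := S.fold (fun a b => a ||| b) 0 (fun i : Fin 10 => 2 ^ (i : ℕ))

/-- set of a bit mask -/
def setOf (M : ℕ) : Finset (Fin 10) := Finset.univ.filter (fun i => M.testBit i)

theorem mem_setOf {M : ℕ} {i : Fin 10} : i ∈ setOf M ↔ M.testBit i = true := by
  unfold setOf
  rw [Finset.mem_filter]
  simp

theorem testBit_mask (S : Finset (Fin 10)) (j : ℕ) :
    (mask S).testBit j = true ↔ ∃ i ∈ S, (i : ℕ) = j := by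
  unfold mask
  induction S using Finset.induction_on with
  | empty => simp
  | insert a s ha ih =>
    rw [Finset.fold_insert ha, Nat.testBit_or, Bool.or_eq_true, ih, Nat.testBit_two_pow]
    constructor
    · rintro (h | ⟨i, hi, hij⟩)
      · exact ⟨a, Finset.mem_insert_self _ _, by simpa using h⟩
      · exact ⟨i, Finset.mem_insert_of_mem hi, hij⟩
    · rintro ⟨i, hi, hij⟩
      rcases Finset.mem_insert.1 hi with h | h
      · left
        rw [← h]
        simpa using hij
      · exact Or.inr ⟨i, h, hij⟩

theorem testBit_mask_fin (S : Finset (Fin 10)) (j : Fin 10) :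
    (mask S).testBit j = true ↔ j ∈ S := by
  rw [testBit_mask]
  constructor
  · rintro ⟨i, hi, hij⟩
    rwa [Fin.ext hij] at hi
  · intro h
    exact ⟨j, h, rfl⟩

theorem setOf_mask (S : Finset (Fin 10)) : setOf (mask S) = S := by
  ext i
  rw [mem_setOf, testBit_mask_fin]

theorem mask_lt (S : Finset (Fin 10)) : mask S < 1024 := by
  have h : mask S < 2 ^ 10 := by
    apply Nat.lt_pow_two_of_testBit
    intro i hi
    by_contra hcon
    rw [Bool.not_eq_false, testBit_mask] at hcon
    obtain ⟨k, _, hk⟩ := hcon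
    have := k.isLt
    omega
  simpa using h

theorem mask_setOf {M : ℕ} (hM : M < 1024) : mask (setOf M) = M := by
  apply Nat.eq_of_testBit_eq
  intro j
  rw [Bool.eq_iff_iff, testBit_mask]
  constructor
  · rintro ⟨i, hi, hij⟩
    rw [mem_setOf] at hi
    rwa [hij] at hi
  · intro h
    have hj : j < 10 := by
      by_contra hcon
      have h2 : M < 2 ^ j := lt_of_lt_of_le hM (by
        calc (1024 : ℕ) = 2 ^ 10 := by norm_num
          _ ≤ 2 ^ j := Nat.pow_le_pow_right (by norm_num) (by omega))
      rw [Nat.testBit_lt_two_pow h2] at h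
      exact absurd h (by simp)
    exact ⟨⟨j, hj⟩, mem_setOf.2 h, rfl⟩

theorem mask_insert (v : Fin 10) (S : Finset (Fin 10)) : mask (insert v S) = mask S ||| 2 ^ (v : ℕ) := by
  apply Nat.eq_of_testBit_eq
  intro j
  rw [Bool.eq_iff_iff, testBit_mask, Nat.testBit_or, Bool.or_eq_true, testBit_mask, Nat.testBit_two_pow]
  constructor
  · rintro ⟨i, hi, hij⟩
    rcases Finset.mem_insert.1 hi with h | h
    · right
      rw [← h]
      simpa using hij
    · exact Or.inl ⟨i, h, hij⟩
  · rintro (⟨i, hi, hij⟩ | h)
    · exact ⟨i, Finset.mem_insert_of_mem hi, hij⟩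
    · exact ⟨v, Finset.mem_insert_self _ _, by simpa using h⟩

theorem sub_iff {M K : ℕ} (hM : M < 1024) : M &&& K = M ↔ setOf M ⊆ setOf K := by
  constructor
  · intro h i hi
    rw [mem_setOf] at hi ⊢
    rw [← h, Nat.testBit_and, Bool.and_eq_true] at hi
    exact hi.2
  · intro h
    apply Nat.eq_of_testBit_eq
    intro j
    rw [Bool.eq_iff_iff, Nat.testBit_and, Bool.and_eq_true]
    constructor
    · exact fun h => h.1
    · intro hj
      refine ⟨hj, ?_⟩
      have h1 : (mask (setOf M)).testBit j = true := by rw [mask_setOf hM]; exact hj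
      rw [testBit_mask] at h1
      obtain ⟨i, hi, hij⟩ := h1
      have := h hi
      rw [mem_setOf, hij] at this
      exact this

/-- masks of the sets with three elements -/
def L3 : List ℕ :=
  [7, 11, 13, 14, 19, 21, 22, 25, 26, 28, 35, 37, 38, 41, 42, 44, 49, 50, 52, 56, 67, 69, 70, 73,
   74, 76, 81, 82, 84, 88, 97, 98, 100, 104, 112, 131, 133, 134, 137, 138, 140, 145, 146, 148, 152,
   161, 162, 164, 168, 176, 193, 194, 196, 200, 208, 224, 259, 261, 262, 265, 266, 268, 273, 274,
   276, 280, 289, 290, 292, 296, 304, 321, 322, 324, 328, 336, 352, 385, 386, 388, 392, 400, 416,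
   448, 515, 517, 518, 521, 522, 524, 529, 530, 532, 536, 545, 546, 548, 552, 560, 577, 578, 580,
   584, 592, 608, 641, 642, 644, 648, 656, 672, 704, 769, 770, 772, 776, 784, 800, 832, 896]

/-- masks of the sets with four elements -/
def L4 : List ℕ :=
  [15, 23, 27, 29, 30, 39, 43, 45, 46, 51, 53, 54, 57, 58, 60, 71, 75, 77, 78, 83, 85, 86, 89, 90,
   92, 99, 101, 102, 105, 106, 108, 113, 114, 116, 120, 135, 139, 141, 142, 147, 149, 150, 153, 154,
   156, 163, 165, 166, 169, 170, 172, 177, 178, 180, 184, 195, 197, 198, 201, 202, 204, 209, 210,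
   212, 216, 225, 226, 228, 232, 240, 263, 267, 269, 270, 275, 277, 278, 281, 282, 284, 291, 293,
   294, 297, 298, 300, 305, 306, 308, 312, 323, 325, 326, 329, 330, 332, 337, 338, 340, 344, 353,
   354, 356, 360, 368, 387, 389, 390, 393, 394, 396, 401, 402, 404, 408, 417, 418, 420, 424, 432,
   449, 450, 452, 456, 464, 480, 519, 523, 525, 526, 531, 533, 534, 537, 538, 540, 547, 549, 550,
   553, 554, 556, 561, 562, 564, 568, 579, 581, 582, 585, 586, 588, 593, 594, 596, 600, 609, 610,
   612, 616, 624, 643, 645, 646, 649, 650, 652, 657, 658, 660, 664, 673, 674, 676, 680, 688, 705,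
   706, 708, 712, 720, 736, 771, 773, 774, 777, 778, 780, 785, 786, 788, 792, 801, 802, 804, 808,
   816, 833, 834, 836, 840, 848, 864, 897, 898, 900, 904, 912, 928, 960]

theorem L3_card : ∀ M ∈ L3, M < 1024 ∧ (setOf M).card = 3 := by decide +kernel

theorem L3_compl : ∀ M < 1024, (setOf M).card = 3 → M ∈ L3 := by decide +kernel

theorem L4_compl : ∀ M < 1024, (setOf M).card = 4 → M ∈ L4 := by decide +kernel

theorem mem_L4 {S : Finset (Fin 10)} (hS : S.card = 4) : mask S ∈ L4 :=
  L4_compl _ (mask_lt S) (by rw [setOf_mask]; exact hS)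

theorem mem_L3 {S : Finset (Fin 10)} (hS : S.card = 3) : mask S ∈ L3 :=
  L3_compl _ (mask_lt S) (by rw [setOf_mask]; exact hS)

/-- the `3`-closure whose faces with four elements are given by a list of masks -/
def Gam (H : List ℕ) : Set (Finset (Fin 10)) := {F | ∀ S ⊆ F, S.card = 4 → mask S ∈ H}

theorem gam_four {H : List ℕ} {S : Finset (Fin 10)} (hS : S.card = 4) : S ∈ Gam H ↔ mask S ∈ H := by
  constructor
  · intro h
    exact h S (Finset.Subset.refl S) hS
  · intro h T hT hT4
    rw [Finset.eq_of_subset_of_card_le hT (by omega)]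
    exact h

theorem gam_closure (H : List ℕ) : IsClosure 3 (Gam H) := by
  unfold IsClosure clos
  ext F
  rw [Set.mem_ofPred_eq]
  constructor
  · intro h
    by_cases hc : F.card ≤ 3
    · exact Or.inl hc
    · exact Or.inr ⟨by omega, fun S hS hS4 => (gam_four hS4).2 (h S hS hS4)⟩
  · rintro (h | ⟨_, h⟩)
    · intro S hS hS4
      have := Finset.card_le_card hS
      omega
    · intro S hS hS4
      exact (gam_four hS4).1 (h S hS hS4)

theorem gam_nil : Gam [] = {F | F.card ≤ 3} := by
  ext F
  rw [Set.mem_ofPred_eq]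
  constructor
  · intro h
    by_contra hcon
    push Not at hcon
    obtain ⟨S, hS, hS4⟩ := Finset.exists_subset_card_eq (show 4 ≤ F.card by omega)
    exact absurd (h S hS hS4) (by simp)
  · intro h S hS hS4
    have := Finset.card_le_card hS
    omega

/-- deletion at the level of lists -/
def delH (H : List ℕ) (E : ℕ) : List ℕ := H.filter (fun M => M &&& E != E)

/-- `E` is simplicial in the closure, its unique facet being `F ≠ E` -/
def good (H : List ℕ) (E F : ℕ) : Bool :=
  L3.contains E && decide (F < 1024) && (F != E) &&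
  (List.range 10).all (fun v => F.testBit v == (E.testBit v || H.contains (E ||| 2 ^ v))) &&
  L4.all (fun M => (M &&& F != M) || H.contains M)

theorem good_spec {H : List ℕ} {E F : ℕ} (h : good H E F = true) :
    setOf E ∈ Simp 3 (Gam H) ∧ ¬ IsFacet (Gam H) (setOf E) ∧ del (Gam H) (setOf E) = Gam (delH H E) := by
  unfold good at h
  simp only [Bool.and_eq_true, List.all_eq_true, List.mem_range, Bool.or_eq_true, bne_iff_ne, ne_eq,
    decide_eq_true_eq, List.contains_iff_mem, beq_iff_eq] at h
  obtain ⟨⟨⟨⟨hE, hF⟩, hFE⟩, hN⟩, hcl⟩ := h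
  obtain ⟨hE1, hE3⟩ := L3_card E hE
  have hmE := mask_setOf hE1
  have hmF := mask_setOf hF
  have hf : ∀ v : Fin 10, v ∈ setOf F ↔ (v ∈ setOf E ∨ mask (insert v (setOf E)) ∈ H) := by
    intro v
    have := hN v v.isLt
    rw [mem_setOf, mem_setOf, mask_insert, hmE, this, Bool.or_eq_true, List.contains_iff_mem]
  have hfG : setOf F ∈ Gam H := by
    intro S hS hS4
    rcases hcl _ (mem_L4 hS4) with h | h
    · exfalso
      apply h
      rw [sub_iff (mask_lt S), setOf_mask]
      exact hS
    · exact h
  have hef : setOf E ⊆ setOf F := fun v hv => (hf v).2 (Or.inl hv)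
  have hmax : ∀ G ∈ Gam H, setOf E ⊆ G → G ⊆ setOf F := by
    intro G hG hEG v hv
    rw [hf]
    by_cases hvE : v ∈ setOf E
    · exact Or.inl hvE
    · right
      apply hG _ (Finset.insert_subset hv hEG)
      rw [Finset.card_insert_of_notMem hvE, hE3]
  have hfacet : IsFacet (Gam H) (setOf F) := by
    refine ⟨hfG, ?_⟩
    intro G hG hFG
    exact Finset.Subset.antisymm (hmax G hG (hef.trans hFG)) hFG
  refine ⟨⟨⟨?_, setOf F, ⟨hfacet, hef⟩, ?_⟩, hE3⟩, ?_, ?_⟩
  · intro S hS hS4
    have := Finset.card_le_card hS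
    omega
  · rintro F2 ⟨hF2, hEF2⟩
    exact (hF2.2 _ hfG (hmax F2 hF2.1 hEF2)).symm
  · intro hcon
    have h2 := hcon.2 _ hfG hef
    apply hFE
    rw [← hmF, ← hmE, h2]
  · ext G
    unfold del
    rw [Set.mem_ofPred_eq]
    constructor
    · rintro ⟨hG, hnE⟩ S hS hS4
      unfold delH
      rw [List.mem_filter]
      refine ⟨hG S hS hS4, ?_⟩
      rw [bne_iff_ne]
      intro hcon
      apply hnE
      rw [Nat.and_comm, sub_iff hE1, setOf_mask] at hcon
      refine LE.le.ssubset_of_ne (hcon.trans hS) ?_
      intro heq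
      have h1 := Finset.card_le_card hS
      rw [← heq, hE3, hS4] at h1
      omega
    · intro hG
      refine ⟨?_, ?_⟩
      · intro S hS hS4
        exact (List.mem_filter.1 (hG S hS hS4)).1
      · intro hcon
        obtain ⟨v, hv, hvE⟩ := Finset.exists_of_ssubset hcon
        have h1 := hG (insert v (setOf E)) (Finset.insert_subset hv hcon.1) (by
          rw [Finset.card_insert_of_notMem hvE, hE3])
        unfold delH at h1
        rw [List.mem_filter, bne_iff_ne] at h1
        apply h1.2
        rw [Nat.and_comm, sub_iff hE1, setOf_mask]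
        exact Finset.subset_insert _ _

/-- check of a simplicial order -/
def run : List ℕ → List (ℕ × ℕ) → Bool
  | H, [] => H.isEmpty
  | H, (E, F) :: t => good H E F && run (delH H E) t

theorem run_spec (l : List (ℕ × ℕ)) : ∀ H : List ℕ, run H l = true → Chordal 3 (Gam H) := by
  induction l with
  | nil =>
    intro H h
    unfold run at h
    rw [List.isEmpty_iff] at h
    rw [h, gam_nil]
    exact Chordal.skel
  | cons p t ih =>
    intro H h
    obtain ⟨E, F⟩ := p
    unfold run at h
    rw [Bool.and_eq_true] at h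
    obtain ⟨h1, h2, h3⟩ := good_spec h.1
    refine Chordal.step _ (setOf E) (gam_closure H) h1 h2 ?_
    rw [h3]
    exact ih _ h.2

/-- check that no face with three elements is simplicial and not a facet -/
def stuckAt (H : List ℕ) (E M : ℕ) : Bool :=
  (List.range 10).all (fun v => E.testBit v || !H.contains (E ||| 2 ^ v)) ||
  (L4.contains M && !H.contains M &&
    (List.range 10).all (fun v => !M.testBit v || E.testBit v || H.contains (E ||| 2 ^ v)))

theorem L4_card : ∀ M ∈ L4, M < 1024 ∧ (setOf M).card = 4 := by decide +kernel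

theorem stuck_spec {H : List ℕ} {E M : ℕ} (hE : E ∈ L3) (h : stuckAt H E M = true) :
    setOf E ∈ Simp 3 (Gam H) → IsFacet (Gam H) (setOf E) := by
  rintro ⟨⟨hEG, f0, ⟨hf0, hEf0⟩, huniq⟩, _⟩
  obtain ⟨hE1, hE3⟩ := L3_card E hE
  have hmE := mask_setOf hE1
  unfold stuckAt at h
  rw [Bool.or_eq_true] at h
  rcases h with h | h
  · simp only [List.all_eq_true, List.mem_range, Bool.or_eq_true, Bool.not_eq_true'] at h
    refine ⟨hEG, ?_⟩
    intro G hG hEG2
    by_contra hcon
    obtain ⟨v, hv, hvE⟩ := Finset.exists_of_ssubset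
      (LE.le.ssubset_of_ne hEG2 (fun h => hcon h.symm))
    have h1 := hG (insert v (setOf E)) (Finset.insert_subset hv hEG2) (by
      rw [Finset.card_insert_of_notMem hvE, hE3])
    rw [mask_insert, hmE] at h1
    rcases h v v.isLt with h2 | h2
    · exact hvE (mem_setOf.2 h2)
    · rw [← Bool.not_eq_true, List.contains_iff_mem] at h2
      exact h2 h1
  · simp only [List.all_eq_true, List.mem_range, Bool.or_eq_true, Bool.not_eq_true',
      Bool.and_eq_true, List.contains_iff_mem] at h
    obtain ⟨⟨hM4, hMH⟩, hM⟩ := h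
    obtain ⟨hM1, hMc⟩ := L4_card M hM4
    exfalso
    have hsub : setOf M ⊆ f0 := by
      intro v hv
      rcases hM v v.isLt with (h1 | h1) | h1
      · rw [mem_setOf, h1] at hv
        exact absurd hv (by simp)
      · exact hEf0 (mem_setOf.2 h1)
      · by_cases hvE : v ∈ setOf E
        · exact hEf0 hvE
        · rw [← hmE, ← mask_insert] at h1
          have hG : insert v (setOf E) ∈ Gam H :=
            (gam_four (by rw [Finset.card_insert_of_notMem hvE, hE3])).2 h1
          obtain ⟨m, hm1, hm2⟩ := (Set.toFinite (Gam H)).exists_le_maximal hG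
          have hmf : IsFacet (Gam H) m := by
            refine ⟨hm2.1, ?_⟩
            intro G hG2 hmG
            exact Finset.Subset.antisymm (hm2.2 hG2 hmG) hmG
          have hm3 : m = f0 := huniq m ⟨hmf, (Finset.subset_insert _ _).trans hm1⟩
          rw [← hm3]
          exact hm1 (Finset.mem_insert_self _ _)
    have h1 := hf0.1 _ hsub hMc
    rw [mask_setOf hM1] at h1
    rw [← Bool.not_eq_true, List.contains_iff_mem] at hMH
    exact hMH h1

/-- check that a list is not chordal -/
def stuck (H : List ℕ) (W : List (ℕ × ℕ)) : Bool :=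
  !H.isEmpty && H.all (fun M => L4.contains M) &&
  L3.all (fun E => W.any (fun p => (p.1 == E) && stuckAt H E p.2))

theorem stuck_not {H : List ℕ} {W : List (ℕ × ℕ)} (h : stuck H W = true) : ¬ Chordal 3 (Gam H) := by
  unfold stuck at h
  simp only [Bool.and_eq_true, List.all_eq_true, List.any_eq_true, List.contains_iff_mem,
    beq_iff_eq, Bool.not_eq_true'] at h
  obtain ⟨⟨hne, hH⟩, hW⟩ := h
  intro hch
  generalize hG : Gam H = Γ at hch
  cases hch with
  | skel =>
    obtain ⟨M, hM⟩ := List.exists_mem_of_ne_nil H (by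
      intro h0
      rw [h0] at hne
      simp at hne)
    obtain ⟨hM1, hMc⟩ := L4_card M (hH M hM)
    have h1 : setOf M ∈ Gam H := (gam_four hMc).2 (by rw [mask_setOf hM1]; exact hM)
    rw [hG, Set.mem_ofPred_eq, hMc] at h1
    omega
  | step _ E hcl hS hnf hd =>
    subst hG
    have hE := mem_L3 hS.2
    obtain ⟨p, _, hp1, hp2⟩ := hW _ hE
    have h1 := stuck_spec hE hp2
    rw [setOf_mask] at h1
    exact hnf (h1 hS)

/-- the four-element faces of the example -/
def top : List ℕ :=
  [53, 153, 267, 269, 277, 278, 282, 293, 305, 308, 312, 323, 326, 356, 387, 390, 396, 424, 449,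
   480, 523, 525, 533, 534, 538, 549, 561, 568, 579, 582, 612, 643, 646, 652, 680, 705, 736]

/-- a simplicial order with the corresponding facets -/
def downs : List (ℕ × ℕ) :=
  [(289, 309), (137, 153), (273, 277), (261, 269), (268, 396), (13, 525), (388, 390), (386, 387),
   (521, 523), (522, 538), (134, 646), (642, 643), (385, 449), (265, 267), (140, 652), (266, 282),
   (641, 705), (704, 736), (224, 480), (280, 312), (56, 568), (296, 424), (352, 356), (577, 579),
   (324, 326), (648, 680), (608, 612), (548, 549), (67, 323), (262, 278), (578, 582), (22, 534),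
   (292, 308), (52, 53), (532, 533), (545, 561)]

/-- certificates for the stuck complex -/
def wit : List (ℕ × ℕ) :=
  [(7, 0), (11, 771), (13, 773), (14, 0), (19, 0), (21, 773), (22, 774), (25, 0), (26, 778), (28,
   0), (35, 0), (37, 773), (38, 0), (41, 0), (42, 0), (44, 0), (49, 785), (50, 0), (52, 0), (56,
   792), (67, 771), (69, 0), (70, 774), (73, 0), (74, 0), (76, 0), (81, 0), (82, 0), (84, 0), (88,
   0), (97, 0), (98, 0), (100, 804), (104, 0), (112, 0), (131, 771), (133, 0), (134, 774), (137, 0),
   (138, 0), (140, 780), (145, 0), (146, 0), (148, 0), (152, 0), (161, 0), (162, 0), (164, 0), (168,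
   808), (176, 0), (193, 833), (194, 0), (196, 0), (200, 0), (208, 0), (224, 864), (259, 75), (261,
   29), (262, 86), (265, 15), (266, 27), (268, 141), (273, 53), (274, 30), (276, 23), (280, 58),
   (289, 53), (290, 0), (292, 101), (296, 184), (304, 57), (321, 195), (322, 71), (324, 102), (328,
   0), (336, 0), (352, 228), (385, 195), (386, 135), (388, 142), (392, 172), (400, 0), (416, 232),
   (448, 225), (515, 75), (517, 29), (518, 86), (521, 15), (522, 27), (524, 141), (529, 53), (530,
   30), (532, 23), (536, 58), (545, 53), (546, 0), (548, 101), (552, 184), (560, 57), (577, 195),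
   (578, 71), (580, 102), (584, 0), (592, 0), (608, 228), (641, 195), (642, 135), (644, 142), (648,
   172), (656, 0), (672, 232), (704, 225), (769, 0), (770, 0), (772, 0), (776, 0), (784, 0), (800,
   0), (832, 0), (896, 0)]

theorem top_run : run top downs = true := by decide +kernel

theorem top_good : good top 52 309 = true := by decide +kernel

theorem top_good2 : good (delH top 52) 25 153 = true := by decide +kernel

theorem top_stuck : stuck (delH (delH top 52) 25) wit = true := by decide +kernel

end Pool.Agent.R141.DC
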